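import Mathlib
import Pool.Agent.Y733.LS.Norm

/-!
# The local inequalities in the coordinates of the curve
-/

set_option autoImplicit false

namespace Pool.Agent.Y733.LS

section Sz

variable {K : Type} [Field K]

/-- the size of the coefficients, of weight one -/
noncomputable def sz (w : AbsoluteValue K ℝ) (a b : K) : ℝ :=
  max (w a ^ (1 / 2 : ℝ)) (w b ^ (1 / 3 : ℝ))

variable (w : AbsoluteValue K ℝ) (a b : K)

theorem half_sq : (w a ^ (1 / 2 : ℝ)) ^ 2 = w a := by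
  rw [← Real.rpow_natCast, ← Real.rpow_mul (w.nonneg _)]
  norm_num

theorem third_cube : (w b ^ (1 / 3 : ℝ)) ^ 3 = w b := by
  rw [← Real.rpow_natCast, ← Real.rpow_mul (w.nonneg _)]
  norm_num

theorem sz_nonneg : 0 ≤ sz w a b := (Real.rpow_nonneg (w.nonneg _) _).trans (le_max_left _ _)

theorem le_sz_sq : w a ≤ sz w a b ^ 2 := by
  conv_lhs => rw [← half_sq w a]
  exact pow_le_pow_left₀ (Real.rpow_nonneg (w.nonneg _) _) (le_max_left _ _) _

theorem le_sz_cube : w b ≤ sz w a b ^ 3 := by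
  conv_lhs => rw [← third_cube w b]
  exact pow_le_pow_left₀ (Real.rpow_nonneg (w.nonneg _) _) (le_max_right _ _) _

theorem sz_six : sz w a b ^ 6 = max (w a ^ 3) (w b ^ 2) := by
  have h1 : (w a ^ (1 / 2 : ℝ)) ^ 6 = w a ^ 3 := by
    rw [show 6 = 2 * 3 by norm_num, pow_mul, half_sq]
  have h2 : (w b ^ (1 / 3 : ℝ)) ^ 6 = w b ^ 2 := by
    rw [show 6 = 3 * 2 by norm_num, pow_mul, third_cube]
  have p1 := Real.rpow_nonneg (w.nonneg a) (1 / 2 : ℝ)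
  have p2 := Real.rpow_nonneg (w.nonneg b) (1 / 3 : ℝ)
  unfold sz
  rcases le_total (w a ^ (1 / 2 : ℝ)) (w b ^ (1 / 3 : ℝ)) with h | h
  · rw [max_eq_right h, h2, max_eq_right]
    rw [← h1, ← h2]
    exact pow_le_pow_left₀ p1 h _
  · rw [max_eq_left h, h1, max_eq_left]
    rw [← h1, ← h2]
    exact pow_le_pow_left₀ p2 h _

variable {w a b}

theorem sz_pos (ha : a ≠ 0) : 0 < sz w a b :=
  (Real.rpow_pos_of_pos (w.pos ha) _).trans_le (le_max_left _ _)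

theorem sz_eq_of (hab : w a ^ 3 = w b ^ 2) : w a = sz w a b ^ 2 ∧ w b = sz w a b ^ 3 := by
  have h6 := sz_six w a b
  rw [hab, max_self] at h6
  have h0 := sz_nonneg w a b
  constructor
  · have : (w a) ^ 3 = (sz w a b ^ 2) ^ 3 := by rw [hab, ← h6]; ring
    exact (pow_left_inj₀ (w.nonneg _) (by positivity) (by norm_num : 3 ≠ 0)).1 this
  · have : (w b) ^ 2 = (sz w a b ^ 3) ^ 2 := by rw [← h6]; ring
    exact (pow_left_inj₀ (w.nonneg _) (by positivity) (by norm_num : 2 ≠ 0)).1 this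

end Sz

section T

variable {K : Type} [Field K] {w : AbsoluteValue K ℝ} {a b : K}

theorem pF_scale (ha : a ≠ 0) (hb : b ≠ 0) (x : K) :
    pF a b x = (b / a) ^ 4 * pF (a ^ 3 / b ^ 2) (a ^ 3 / b ^ 2) (x * a / b) := by
  unfold pF
  field_simp

theorem pG_scale (ha : a ≠ 0) (hb : b ≠ 0) (x : K) :
    pG a b x = (b / a) ^ 3 * pG (a ^ 3 / b ^ 2) (a ^ 3 / b ^ 2) (x * a / b) := by
  unfold pG
  field_simp

theorem dl_scale (hb : b ≠ 0) : 4 * (a ^ 3 / b ^ 2) + 27 = dl a b / b ^ 2 := by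
  unfold dl
  field_simp

/-- `x` does not reduce to the singular point -/
def Good (w : AbsoluteValue K ℝ) (a b x : K) : Prop := w b ≤ w (2 * a * x + 3 * b)

theorem good_iff (hb : b ≠ 0) (x : K) : Good w a b x ↔ 1 ≤ w (2 * (x * a / b) + 3) := by
  have e : 2 * (x * a / b) + 3 = (2 * a * x + 3 * b) / b := by
    field_simp
  rw [e, map_div₀, le_div_iff₀ (w.pos hb), one_mul]
  rfl

theorem quot_scale (ha : a ≠ 0) (hb : b ≠ 0) (x : K) :
    pF a b x / pG a b x * a / b = pF (a ^ 3 / b ^ 2) (a ^ 3 / b ^ 2) (x * a / b) /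
      pG (a ^ 3 / b ^ 2) (a ^ 3 / b ^ 2) (x * a / b) := by
  rw [pF_scale ha hb, pG_scale ha hb]
  have h1 : b / a ≠ 0 := div_ne_zero hb ha
  rcases eq_or_ne (pG (a ^ 3 / b ^ 2) (a ^ 3 / b ^ 2) (x * a / b)) 0 with h | h
  · rw [h]
    simp
  · field_simp

theorem t_unit (hb : b ≠ 0) (hab : w a ^ 3 = w b ^ 2) : w (a ^ 3 / b ^ 2) = 1 := by
  rw [map_div₀, map_pow, map_pow, hab, div_self (pow_pos (w.pos hb) _).ne']

theorem pG_ne (ha : a ≠ 0) (hb : b ≠ 0) {x : K} (hG : pG a b x ≠ 0) :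
    pG (a ^ 3 / b ^ 2) (a ^ 3 / b ^ 2) (x * a / b) ≠ 0 := by
  intro h
  apply hG
  rw [pG_scale ha hb, h, mul_zero]

theorem good_step [CharZero K] (h : Na w) (h2 : w 2 = 1) (ha : a ≠ 0) (hb : b ≠ 0)
    (hab : w a ^ 3 = w b ^ 2) (hr : w (dl a b) < w b ^ 2) {x : K} (hx : Good w a b x) :
    max (w x) (sz w a b) ^ 4 ≤ max (w (pF a b x)) (sz w a b * w (pG a b x)) ∧
    (pG a b x ≠ 0 → Good w a b (pF a b x / pG a b x)) := by
  have ht := t_unit hb hab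
  have hr' : w (4 * (a ^ 3 / b ^ 2) + 27) < 1 := by
    rw [dl_scale hb, map_div₀, map_pow, div_lt_one (pow_pos (w.pos hb) _)]
    exact hr
  obtain ⟨g1, g2⟩ := good1 h h2 ht hr' ((good_iff hb x).1 hx)
  obtain ⟨e1, e2⟩ := sz_eq_of hab
  set s := sz w a b with hs
  have hs0 : 0 < s := sz_pos ha
  have hc : w (b / a) = s := by
    rw [map_div₀, e1, e2]
    field_simp
  constructor
  · have hX : w x = s * w (x * a / b) := by
      rw [map_div₀, map_mul, e1, e2]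
      field_simp
    rw [pF_scale ha hb, pG_scale ha hb, map_mul, map_mul, map_pow, map_pow, hc, hX]
    have e3 : max (s * w (x * a / b)) s = s * max (w (x * a / b)) 1 := by
      rw [mul_max_of_nonneg _ _ hs0.le, mul_one]
    have e4 : s * (s ^ 3 * w (pG (a ^ 3 / b ^ 2) (a ^ 3 / b ^ 2) (x * a / b))) =
        s ^ 4 * w (pG (a ^ 3 / b ^ 2) (a ^ 3 / b ^ 2) (x * a / b)) := by ring
    rw [e3, e4, ← mul_max_of_nonneg _ _ (by positivity : (0 : ℝ) ≤ s ^ 4), mul_pow]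
    gcongr
  · intro hG
    rw [good_iff hb, quot_scale ha hb]
    exact g2 (pG_ne ha hb hG)

theorem good_start [CharZero K] (h : Na w) (h2 : w 2 = 1) (h3 : w 3 = 1) (ha : a ≠ 0) (hb : b ≠ 0)
    (hab : w a ^ 3 = w b ^ 2) {q : ℝ} (hq0 : 0 < q) (hq1 : q < 1)
    (hd : ∀ z : K, w z < 1 → w z ≤ q) (hr : w (dl a b) = q * w b ^ 2) {x : K}
    (hG : pG a b x ≠ 0) : Good w a b (pF a b x / pG a b x) := by
  rw [good_iff hb, quot_scale ha hb]
  refine good2 h h2 h3 (t_unit hb hab) hq0 hq1 hd ?_ (pG_ne ha hb hG)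
  rw [dl_scale hb, map_div₀, map_pow, hr, mul_div_cancel_right₀ _ (pow_pos (w.pos hb) _).ne']

theorem gain (h : Na w) (h2 : w 2 = 1) (ha : a ≠ 0) (hb : b ≠ 0) (hab : w a ^ 3 = w b ^ 2)
    (hr : w (dl a b) = w b ^ 2) {Q : ℝ} (hQ : 1 < Q)
    (hd : ∀ z : K, z ≠ 0 → ∃ m : ℤ, w z = Q ^ m) {k : ℤ} (hk : Odd k) (hc : w (b / a) = Q ^ k)
    {x y : K} (hy : y ≠ 0) (hxy : y ^ 2 = x ^ 3 + a * x + b) :
    sz w a b * Q ≤ w (pF a b x / pG a b x) := by
  obtain ⟨e1, e2⟩ := sz_eq_of hab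
  set s := sz w a b with hs
  have hs0 : 0 < s := sz_pos ha
  have hcs : w (b / a) = s := by
    rw [map_div₀, e1, e2]
    field_simp
  have hQ0 : 0 < Q := by linarith
  obtain ⟨m, hm⟩ := hd y hy
  have h4 : w (4 : K) = 1 := by
    have : (4 : K) = 2 ^ 2 := by norm_num
    rw [this, pw2 h2]
  have hG : w (pG a b x) = Q ^ (2 * m) := by
    have e : pG a b x = 4 * y ^ 2 := by
      unfold pG
      rw [hxy]
    rw [e, map_mul, h4, one_mul, map_pow, hm, ← zpow_natCast, ← zpow_mul]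
    congr 1
    push_cast
    ring
  have hG1 : w (pG (a ^ 3 / b ^ 2) (a ^ 3 / b ^ 2) (x * a / b)) = Q ^ (2 * m - 3 * k) := by
    have e3 := hG
    rw [pG_scale ha hb, map_mul, map_pow, hc] at e3
    have e4 : Q ^ (3 * k) = (Q ^ k) ^ 3 := by
      rw [← zpow_natCast, ← zpow_mul]
      congr 1
      push_cast
      ring
    have e5 : (Q ^ k) ^ 3 ≠ 0 := by positivity
    rw [zpow_sub₀ hQ0.ne', ← e3, e4]
    field_simp
  have hodd : Odd (2 * m - 3 * k) := by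
    obtain ⟨i, hi⟩ := hk
    exact ⟨m - 3 * i - 2, by rw [hi]; ring⟩
  have hr' : w (4 * (a ^ 3 / b ^ 2) + 27) = 1 := by
    rw [dl_scale hb, map_div₀, map_pow, hr, div_self (pow_pos (w.pos hb) _).ne']
  have h5 := gain1 h h2 (t_unit hb hab) hQ hd hr' hG1 hodd
  have e5 : pF a b x / pG a b x = (b / a) * (pF (a ^ 3 / b ^ 2) (a ^ 3 / b ^ 2) (x * a / b) /
      pG (a ^ 3 / b ^ 2) (a ^ 3 / b ^ 2) (x * a / b)) := by
    rw [← quot_scale ha hb]
    field_simp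
  rw [e5, map_mul, hcs]
  gcongr

end T

section Arch

variable {K : Type} [Field K] {w : AbsoluteValue K ℝ}

/-- the resultant inequality, archimedean case -/
theorem res_arch (hn : ∀ n : ℕ, w (n : K) ≤ n) {a b x : K} {s : ℝ} (hs : 0 < s)
    (ha : w a ≤ s ^ 2) (hb : w b ≤ s ^ 3) :
    w (4 * dl a b) * max (w x) s ^ 4 ≤ 1000 * s ^ 6 * max (w (pF a b x)) (s * w (pG a b x)) := by
  set M := max (w x) s with hM
  set R := max (w (pF a b x)) (s * w (pG a b x)) with hR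
  have hR1 : w (pF a b x) ≤ R := le_max_left _ _
  have hR2 : s * w (pG a b x) ≤ R := le_max_right _ _
  have hR0 : 0 ≤ R := (w.nonneg _).trans hR1
  have hsM : s ≤ M := le_max_right _ _
  have hxM : w x ≤ M := le_max_left _ _
  have hM0 : 0 < M := lt_of_lt_of_le hs hsM
  have wa : ∀ (z z' : K) (r r' : ℝ), w z ≤ r → w z' ≤ r' → w (z + z') ≤ r + r' := by
    intro z z' r r' hz hz'
    exact (w.add_le z z').trans (add_le_add hz hz')
  have ws : ∀ (z z' : K) (r r' : ℝ), w z ≤ r → w z' ≤ r' → w (z - z') ≤ r + r' := by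
    intro z z' r r' hz hz'
    rw [sub_eq_add_neg]
    exact wa _ _ _ _ hz (by rw [map_neg_eq_map]; exact hz')
  have wp : ∀ (z : K) (n : ℕ) (r : ℝ), w z ≤ r → w (z ^ n) ≤ r ^ n := by
    intro z n r hz
    rw [map_pow]
    exact pow_le_pow_left₀ (w.nonneg _) hz n
  have wm : ∀ (z z' : K) (r r' : ℝ), w z ≤ r → w z' ≤ r' → w (z * z') ≤ r * r' := by
    intro z z' r r' hz hz'
    rw [map_mul]
    exact mul_le_mul hz hz' (w.nonneg _) ((w.nonneg _).trans hz)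
  have wn : ∀ (n : ℕ) (z : K) (r : ℝ), w z ≤ r → w ((n : K) * z) ≤ n * r := by
    intro n z r hz
    exact wm _ _ _ _ (hn n) hz
  have hdl : w (dl a b) ≤ 31 * s ^ 6 := by
    have e : dl a b = ((4 : ℕ) : K) * a ^ 3 + ((27 : ℕ) : K) * b ^ 2 := by
      unfold dl; push_cast; ring
    rw [e]
    refine (wa _ _ _ _ (wn 4 _ _ (wp a 3 _ ha)) (wn 27 _ _ (wp b 2 _ hb))).trans (le_of_eq ?_)
    push_cast
    ring
  rcases le_or_gt (w x) s with hx | hx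
  · have hMs : M = s := max_eq_right hx
    rw [hMs]
    have h1 := res1 a b x
    have e1 : w (12 * x ^ 2 + 16 * a) ≤ 28 * s ^ 2 := by
      have e : 12 * x ^ 2 + 16 * a = ((12 : ℕ) : K) * x ^ 2 + ((16 : ℕ) : K) * a := by
        push_cast; ring
      rw [e]
      refine (wa _ _ _ _ (wn 12 _ _ (wp x 2 _ hx)) (wn 16 _ _ ha)).trans (le_of_eq ?_)
      push_cast
      ring
    have e2 : w (3 * x ^ 3 - 5 * a * x - 27 * b) ≤ 35 * s ^ 3 := by
      have e : 3 * x ^ 3 - 5 * a * x - 27 * b =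
          ((3 : ℕ) : K) * x ^ 3 - ((5 : ℕ) : K) * (a * x) - ((27 : ℕ) : K) * b := by
        push_cast; ring
      rw [e]
      refine (ws _ _ _ _ (ws _ _ _ _ (wn 3 _ _ (wp x 3 _ hx))
        (wn 5 _ _ (wm a x _ _ ha hx))) (wn 27 _ _ hb)).trans (le_of_eq ?_)
      push_cast
      ring
    have h2 : w (4 * dl a b) ≤ 63 * s ^ 2 * R := by
      rw [← h1]
      refine (ws _ _ _ _ (wm _ _ _ _ e1 hR1) (wm _ _ _ _ e2 le_rfl)).trans ?_
      calc 28 * s ^ 2 * R + 35 * s ^ 3 * w (pG a b x)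
          = 28 * s ^ 2 * R + 35 * s ^ 2 * (s * w (pG a b x)) := by ring
        _ ≤ 28 * s ^ 2 * R + 35 * s ^ 2 * R := by gcongr
        _ = 63 * s ^ 2 * R := by ring
    have h3 : 0 ≤ s ^ 6 * R := by positivity
    calc w (4 * dl a b) * s ^ 4 ≤ (63 * s ^ 2 * R) * s ^ 4 := by gcongr
      _ = 63 * (s ^ 6 * R) := by ring
      _ ≤ 1000 * (s ^ 6 * R) := by linarith
      _ = 1000 * s ^ 6 * R := by ring
  · have hMx : M = w x := max_eq_left hx.le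
    have h1 := res2 a b x
    have hs0 := hs.le
    have e1 : w (4 * dl a b * x ^ 3 - 4 * a ^ 2 * b * x ^ 2 +
        4 * a * (3 * a ^ 3 + 22 * b ^ 2) * x + 12 * b * (a ^ 3 + 8 * b ^ 2)) ≤
        400 * (s ^ 6 * M ^ 3) := by
      have i1 : w (((4 : ℕ) : K) * (dl a b * x ^ 3)) ≤ 124 * (s ^ 6 * M ^ 3) := by
        refine (wn 4 _ _ (wm _ _ _ _ hdl (wp x 3 _ hxM))).trans (le_of_eq ?_)
        push_cast
        ring
      have i2 : w (((4 : ℕ) : K) * (a ^ 2 * b * x ^ 2)) ≤ 4 * (s ^ 6 * M ^ 3) := by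
        refine (wn 4 _ _ (wm _ _ _ _ (wm _ _ _ _ (wp a 2 _ ha) hb) (wp x 2 _ hxM))).trans ?_
        push_cast
        calc 4 * ((s ^ 2) ^ 2 * s ^ 3 * M ^ 2) = 4 * (s ^ 6 * M ^ 2 * s) := by ring
          _ ≤ 4 * (s ^ 6 * M ^ 2 * M) := by gcongr
          _ = 4 * (s ^ 6 * M ^ 3) := by ring
      have i3 : w (((4 : ℕ) : K) * (a * (((3 : ℕ) : K) * a ^ 3 + ((22 : ℕ) : K) * b ^ 2) * x)) ≤
          100 * (s ^ 6 * M ^ 3) := by
        have e' : w (((3 : ℕ) : K) * a ^ 3 + ((22 : ℕ) : K) * b ^ 2) ≤ 25 * s ^ 6 := by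
          refine (wa _ _ _ _ (wn 3 _ _ (wp a 3 _ ha)) (wn 22 _ _ (wp b 2 _ hb))).trans
            (le_of_eq ?_)
          push_cast
          ring
        refine (wn 4 _ _ (wm _ _ _ _ (wm _ _ _ _ ha e') hxM)).trans ?_
        push_cast
        calc 4 * (s ^ 2 * (25 * s ^ 6) * M) = 100 * (s ^ 6 * M * s ^ 2) := by ring
          _ ≤ 100 * (s ^ 6 * M * M ^ 2) := by gcongr
          _ = 100 * (s ^ 6 * M ^ 3) := by ring
      have i4 : w (((12 : ℕ) : K) * (b * (a ^ 3 + ((8 : ℕ) : K) * b ^ 2))) ≤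
          108 * (s ^ 6 * M ^ 3) := by
        have e' : w (a ^ 3 + ((8 : ℕ) : K) * b ^ 2) ≤ 9 * s ^ 6 := by
          refine (wa _ _ _ _ (wp a 3 _ ha) (wn 8 _ _ (wp b 2 _ hb))).trans (le_of_eq ?_)
          push_cast
          ring
        refine (wn 12 _ _ (wm _ _ _ _ hb e')).trans ?_
        push_cast
        calc 12 * (s ^ 3 * (9 * s ^ 6)) = 108 * (s ^ 6 * s ^ 3) := by ring
          _ ≤ 108 * (s ^ 6 * M ^ 3) := by gcongr
      have e : 4 * dl a b * x ^ 3 - 4 * a ^ 2 * b * x ^ 2 +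
        4 * a * (3 * a ^ 3 + 22 * b ^ 2) * x + 12 * b * (a ^ 3 + 8 * b ^ 2) =
        ((4 : ℕ) : K) * (dl a b * x ^ 3) - ((4 : ℕ) : K) * (a ^ 2 * b * x ^ 2) +
        ((4 : ℕ) : K) * (a * (((3 : ℕ) : K) * a ^ 3 + ((22 : ℕ) : K) * b ^ 2) * x) +
        ((12 : ℕ) : K) * (b * (a ^ 3 + ((8 : ℕ) : K) * b ^ 2)) := by
        push_cast; ring
      rw [e]
      refine (wa _ _ _ _ (wa _ _ _ _ (ws _ _ _ _ i1 i2) i3) i4).trans ?_
      have : 0 ≤ s ^ 6 * M ^ 3 := by positivity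
      linarith
    have e2 : w (a ^ 2 * b * x ^ 3 + a * (5 * a ^ 3 + 32 * b ^ 2) * x ^ 2 +
        2 * b * (13 * a ^ 3 + 96 * b ^ 2) * x - 3 * a ^ 2 * (a ^ 3 + 8 * b ^ 2)) ≤
        600 * (s ^ 7 * M ^ 3) := by
      have i1 : w (a ^ 2 * b * x ^ 3) ≤ 1 * (s ^ 7 * M ^ 3) := by
        refine (wm _ _ _ _ (wm _ _ _ _ (wp a 2 _ ha) hb) (wp x 3 _ hxM)).trans ?_
        exact le_of_eq (by ring)
      have i2 : w (a * (((5 : ℕ) : K) * a ^ 3 + ((32 : ℕ) : K) * b ^ 2) * x ^ 2) ≤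
          37 * (s ^ 7 * M ^ 3) := by
        have e' : w (((5 : ℕ) : K) * a ^ 3 + ((32 : ℕ) : K) * b ^ 2) ≤ 37 * s ^ 6 := by
          refine (wa _ _ _ _ (wn 5 _ _ (wp a 3 _ ha)) (wn 32 _ _ (wp b 2 _ hb))).trans
            (le_of_eq ?_)
          push_cast
          ring
        refine (wm _ _ _ _ (wm _ _ _ _ ha e') (wp x 2 _ hxM)).trans ?_
        calc s ^ 2 * (37 * s ^ 6) * M ^ 2 = 37 * (s ^ 7 * M ^ 2 * s) := by ring
          _ ≤ 37 * (s ^ 7 * M ^ 2 * M) := by gcongr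
          _ = 37 * (s ^ 7 * M ^ 3) := by ring
      have i3 : w (((2 : ℕ) : K) * (b * (((13 : ℕ) : K) * a ^ 3 + ((96 : ℕ) : K) * b ^ 2) * x)) ≤
          218 * (s ^ 7 * M ^ 3) := by
        have e' : w (((13 : ℕ) : K) * a ^ 3 + ((96 : ℕ) : K) * b ^ 2) ≤ 109 * s ^ 6 := by
          refine (wa _ _ _ _ (wn 13 _ _ (wp a 3 _ ha)) (wn 96 _ _ (wp b 2 _ hb))).trans
            (le_of_eq ?_)
          push_cast
          ring
        refine (wn 2 _ _ (wm _ _ _ _ (wm _ _ _ _ hb e') hxM)).trans ?_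
        push_cast
        calc 2 * (s ^ 3 * (109 * s ^ 6) * M) = 218 * (s ^ 7 * M * s ^ 2) := by ring
          _ ≤ 218 * (s ^ 7 * M * M ^ 2) := by gcongr
          _ = 218 * (s ^ 7 * M ^ 3) := by ring
      have i4 : w (((3 : ℕ) : K) * (a ^ 2 * (a ^ 3 + ((8 : ℕ) : K) * b ^ 2))) ≤
          27 * (s ^ 7 * M ^ 3) := by
        have e' : w (a ^ 3 + ((8 : ℕ) : K) * b ^ 2) ≤ 9 * s ^ 6 := by
          refine (wa _ _ _ _ (wp a 3 _ ha) (wn 8 _ _ (wp b 2 _ hb))).trans (le_of_eq ?_)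
          push_cast
          ring
        refine (wn 3 _ _ (wm _ _ _ _ (wp a 2 _ ha) e')).trans ?_
        push_cast
        calc 3 * ((s ^ 2) ^ 2 * (9 * s ^ 6)) = 27 * (s ^ 7 * s ^ 3) := by ring
          _ ≤ 27 * (s ^ 7 * M ^ 3) := by gcongr
      have e : a ^ 2 * b * x ^ 3 + a * (5 * a ^ 3 + 32 * b ^ 2) * x ^ 2 +
        2 * b * (13 * a ^ 3 + 96 * b ^ 2) * x - 3 * a ^ 2 * (a ^ 3 + 8 * b ^ 2) =
        a ^ 2 * b * x ^ 3 + a * (((5 : ℕ) : K) * a ^ 3 + ((32 : ℕ) : K) * b ^ 2) * x ^ 2 +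
        ((2 : ℕ) : K) * (b * (((13 : ℕ) : K) * a ^ 3 + ((96 : ℕ) : K) * b ^ 2) * x) -
        ((3 : ℕ) : K) * (a ^ 2 * (a ^ 3 + ((8 : ℕ) : K) * b ^ 2)) := by
        push_cast; ring
      rw [e]
      refine (ws _ _ _ _ (wa _ _ _ _ (wa _ _ _ _ i1 i2) i3) i4).trans ?_
      have : 0 ≤ s ^ 7 * M ^ 3 := by positivity
      linarith
    have h2 : w (4 * dl a b * x ^ 7) ≤ 1000 * (s ^ 6 * M ^ 3 * R) := by
      rw [← h1]
      refine (wa _ _ _ _ (wm _ _ _ _ e1 hR1) (wm _ _ _ _ e2 le_rfl)).trans ?_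
      calc 400 * (s ^ 6 * M ^ 3) * R + 600 * (s ^ 7 * M ^ 3) * w (pG a b x)
          = 400 * (s ^ 6 * M ^ 3 * R) + 600 * (s ^ 6 * M ^ 3 * (s * w (pG a b x))) := by ring
        _ ≤ 400 * (s ^ 6 * M ^ 3 * R) + 600 * (s ^ 6 * M ^ 3 * R) := by gcongr
        _ = 1000 * (s ^ 6 * M ^ 3 * R) := by ring
    rw [map_mul, map_pow, ← hMx] at h2
    have h3 : w (4 * dl a b) * M ^ 4 * M ^ 3 ≤ 1000 * s ^ 6 * R * M ^ 3 := by
      calc w (4 * dl a b) * M ^ 4 * M ^ 3 = w (4 * dl a b) * M ^ 7 := by ring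
        _ ≤ 1000 * (s ^ 6 * M ^ 3 * R) := h2
        _ = 1000 * s ^ 6 * R * M ^ 3 := by ring
    exact le_of_mul_le_mul_right h3 (by positivity)

end Arch

end Pool.Agent.Y733.LS
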