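import Mathlib
import Pool.Agent.Y733.LS.Bad

/-!
# The lower bound of Lang and Silverman for almost all invariants, over all number fields
-/

set_option autoImplicit false
set_option linter.unusedSectionVars false

namespace Pool.Agent.Y733.LS

open NumberField IsDedekindDomain Finset Pool.Agent.H691R3 Pool.Agent.W223.AK Pool.Agent.Y733.UD
open Pool.Agent.TH942 Pool.Agent.TH910.LS WeierstrassCurve

/-- the constant for the bad primes -/
noncomputable def C4 : ℝ := Real.log 6 + Real.log 1729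

/-- there is a curve of invariant `j` with a point of order two -/
def Two {K : Type} [Field K] (j : K) : Prop :=
  ∃ α : K, α ≠ 0 ∧ α + 1 ≠ 0 ∧ (α + 3) ^ 2 * (4 * α + 3) ≠ 0 ∧ j = jt α

section One

variable {K : Type} [Field K] [NumberField K] [DecidableEq K]

theorem no_two {a b : K} (ha : a ≠ 0) (hb : b ≠ 0) (hD : dl a b ≠ 0) (h2 : ¬ Two (jj a b))
    {P : SPt a b} (hP : P ≠ 0) : ∀ k : ℕ, (2 ^ k : ℕ) • P ≠ 0 := by
  intro k
  induction k with
  | zero => simpa using hP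
  | succ k ih =>
    intro h0
    obtain ⟨x, y, h, hxy⟩ := exists_coord _ ih
    rw [pow_succ, mul_comm, mul_smul, hxy] at h0
    have hy : y = 0 := by
      by_contra hy
      obtain ⟨_, y', h', e⟩ := dup_some h hy
      rw [e] at h0
      exact absurd h0 (by intro h9; cases h9)
    apply h2
    have he : y ^ 2 = x ^ 3 + a * x + b := sw_eqn.1 h.1
    have he' : x ^ 3 + a * x + b = 0 := by rw [← he, hy]; ring
    obtain ⟨f1, f2, f3⟩ := jt_eq hb hD he'
    refine ⟨a / x ^ 2, div_ne_zero ha (pow_ne_zero _ f1), ?_, f2, f3⟩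
    intro h1
    apply hb
    have h3 : a = -x ^ 2 := by
      have : a / x ^ 2 = -1 := by linear_combination h1
      rw [div_eq_iff (pow_ne_zero _ f1)] at this
      linear_combination this
    rw [h3] at he'
    linear_combination he'

/-- **the lower bound for one curve** -/
theorem one_curve {a b : K} (ha : a ≠ 0) (hb : b ≠ 0) (hD : dl a b ≠ 0) (h2 : ¬ Two (jj a b))
    {η : ℝ} (hη0 : 0 ≤ η) (hη : η < 1 / 2) (hsp : (1 - η) * ht (jj a b) ≤ sp (jj a b))
    (hht : Module.finrank ℚ K * (600 * (C3 + 1 + C4) / (1 - 2 * η)) ≤ ht (jj a b))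
    (S : Finset (Pr K)) (hS : ∀ v ∈ S, BadAt a b v) {P : SPt a b} (hP : P ≠ 0) :
    (1 - 2 * η) / 100 * (Module.finrank ℚ K + ht (jj a b) + ∑ v ∈ S, Real.log (Nv v)) ≤
      chat P := by
  obtain ⟨T, hT, hTS⟩ := bad_sum ha hb hD S hS
  have h := chat_ge ha hb hD P (no_two ha hb hD h2 hP) T hT
  have hn : (0 : ℝ) < Module.finrank ℚ K := by exact_mod_cast Module.finrank_pos
  have hT0 : 0 ≤ ∑ v ∈ T, Real.log (Nv v) := Finset.sum_nonneg fun v _ => (log_Nv_pos v).le
  have h1 : 0 < 1 - 2 * η := by linarith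
  have hC4 : 0 ≤ C4 := add_nonneg (Real.log_nonneg (by norm_num)) (Real.log_nonneg (by norm_num))
  have hC4' : Real.log 6 + Real.log 1729 = C4 := rfl
  rw [hC4'] at hTS
  generalize (∑ v ∈ T, Real.log (Nv v)) = sT at *
  generalize (∑ v ∈ S, Real.log (Nv v)) = sS at *
  generalize ht (jj a b) = H at *
  generalize sp (jj a b) = p at *
  generalize C3 = c3 at *
  generalize C4 = c4 at *
  generalize (Module.finrank ℚ K : ℝ) = n at *
  have h3 : n * (c3 + 1 + c4) ≤ (1 - 2 * η) / 600 * H := by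
    have h4 : (1 - 2 * η) / 600 * (n * (600 * (c3 + 1 + c4) / (1 - 2 * η))) ≤
        (1 - 2 * η) / 600 * H := mul_le_mul_of_nonneg_left hht (by positivity)
    have h5 : (1 - 2 * η) / 600 * (n * (600 * (c3 + 1 + c4) / (1 - 2 * η))) =
        n * (c3 + 1 + c4) := by
      field_simp
    linarith
  have h6 : (1 - 2 * η) / 100 * (n + H + sS) ≤
      (1 - 2 * η) / 100 * (n + H + (sT + 3 * H + n * c4)) :=
    mul_le_mul_of_nonneg_left (by linarith) (by positivity)
  have h7 : (1 - 2 * η) / 100 * (n + H + (sT + 3 * H + n * c4)) ≤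
      (1 - 2 * η) / 25 * H + sT / 4 + n * (1 + c4) := by
    have i1 : (1 - 2 * η) / 100 * (n * (1 + c4)) ≤ n * (1 + c4) := by
      have : 0 ≤ n * (1 + c4) := by positivity
      nlinarith
    have i2 : (1 - 2 * η) / 100 * sT ≤ sT / 4 := by nlinarith
    nlinarith
  nlinarith

theorem tors_zero {a b : K} (hD : dl a b ≠ 0) {P : SPt a b} (hP : IsOfFinAddOrder P) :
    chat P = 0 := q_tors (chat_spec (a := a) (b := b) hD).2.2.1 hP

/-- the lower bound for the powers of the curve -/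
theorem all_powers {a b : K} (hD : dl a b ≠ 0) {μ : ℝ} (hμ : 0 < μ)
    (h : ∀ P : SPt a b, P ≠ 0 → μ ≤ chat P) {g : ℕ} (M : Matrix (Fin g) (Fin g) ℤ)
    (hM : (M.map (Int.cast : ℤ → ℝ)).PosDef) {P : Fin g → SPt a b} (hP : P ≠ 0) :
    μ ≤ chatM M P := by
  have hP' : ¬ IsOfFinAddOrder P := by
    intro hcon
    obtain ⟨i, hi⟩ := Function.ne_iff.1 hP
    have h1 := h (P i) hi
    have h2 : IsOfFinAddOrder (P i) := by
      rw [isOfFinAddOrder_iff_nsmul_eq_zero] at hcon ⊢
      obtain ⟨m, hm, hm'⟩ := hcon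
      refine ⟨m, hm, ?_⟩
      have := congrFun hm' i
      simpa using this
    rw [tors_zero hD h2] at h1
    linarith
  obtain ⟨Q, _, hQ, hQ'⟩ := reduction (a := a) (b := b) hD M hM P hP'
  refine (h Q ?_).trans hQ'
  rintro rfl
  exact hQ IsOfFinAddOrder.zero

end One

open Classical in
/-- the lower bound of Lang and Silverman with constant `c` for the powers of all curves of
invariant `j` -/
def LSP (c : ℝ) {K : Type} [Field K] [NumberField K] (j : K) : Prop :=
  ∀ a b : K, dl a b ≠ 0 → jj a b = j → ∀ S : Finset (Pr K), (∀ v ∈ S, BadAt a b v) →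
    ∀ (g : ℕ) (M : Matrix (Fin g) (Fin g) ℤ), (M.map (Int.cast : ℤ → ℝ)).PosDef →
    ∀ P : Fin g → SPt a b, P ≠ 0 →
      c * (Module.finrank ℚ K + ht j + ∑ v ∈ S, Real.log (Nv v)) ≤ chatM M P

theorem lsp_of {K : Type} [Field K] [NumberField K] {j : K} (h0 : j ≠ 0) (h1 : j ≠ 1728)
    (h2 : ¬ Two j) {η : ℝ} (hη0 : 0 ≤ η) (hη : η < 1 / 2) (hsp : (1 - η) * ht j ≤ sp j)
    (hht : Module.finrank ℚ K * (600 * (C3 + 1 + C4) / (1 - 2 * η)) ≤ ht j) :
    LSP ((1 - 2 * η) / 100) j := by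
  classical
  intro a b hD hj S hS g M hM P hP
  have ha : a ≠ 0 := by
    rintro rfl
    apply h0
    rw [← hj]
    unfold jj
    simp
  have hb : b ≠ 0 := by
    rintro rfl
    apply h1
    have h3 := jj_sub a 0 hD
    rw [hj] at h3
    have h4 : j - 1728 = 0 := by rw [h3]; simp
    linear_combination h4
  subst hj
  have hn : (0 : ℝ) < Module.finrank ℚ K := by exact_mod_cast Module.finrank_pos
  apply all_powers hD _ _ M hM hP
  · have h3 := ht_nonneg (jj a b)
    have h4 : 0 ≤ ∑ v ∈ S, Real.log (Nv v) := Finset.sum_nonneg fun v _ => (log_Nv_pos v).le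
    have h5 : 0 < 1 - 2 * η := by linarith
    positivity
  · intro Q hQ
    exact one_curve ha hb hD h2 hη0 hη hsp hht S hS hQ

/-- **the exceptional invariants** -/
theorem exc_count {η ε : ℝ} (hη0 : 0 < η) (hη : η < 1 / 2) (hε : 0 < ε) : ∃ A : ℝ, 0 ≤ A ∧
    ∀ (K : Type) [Field K] [NumberField K] (X : ℝ) (E : Finset K), 0 ≤ X →
      (∀ j ∈ E, j ≠ 0 ∧ j ≠ 1728 ∧ ht j ≤ X ∧ ¬ LSP ((1 - 2 * η) / 100) j) →
        (E.card : ℝ) ≤ Real.exp (Module.finrank ℚ K * A + (2 - η / 2 + ε) * X) := by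
  classical
  obtain ⟨A1, hA1, hall⟩ := all_card (ε := 1) one_pos
  obtain ⟨A2, hA2, hspc⟩ := sp_count hε
  obtain ⟨A3, hA3, htwo⟩ := two_count hε
  set L0 : ℝ := 600 * (C3 + 1 + C4) / (1 - 2 * η) with hL0
  have hC3 : 0 ≤ C3 := by
    unfold C3
    have h1 : 0 ≤ Real.log 6912 := Real.log_nonneg (by norm_num)
    have h2 : 0 ≤ Real.log 250 := Real.log_nonneg (by norm_num)
    have h3 : 0 ≤ Real.log ((4 * 6912 * 46656 : ℕ) : ℝ) := Real.log_natCast_nonneg _
    positivity
  have hC4 : 0 ≤ C4 := add_nonneg (Real.log_nonneg (by norm_num)) (Real.log_nonneg (by norm_num))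
  have hL00 : 0 ≤ L0 := by
    have : 0 < 1 - 2 * η := by linarith
    positivity
  have hl4 : 0 ≤ Real.log 4 := Real.log_nonneg (by norm_num)
  refine ⟨Real.log 4 + A1 + 3 * L0 + A2 + A3, by positivity, ?_⟩
  intro K _ _ X E hX hE
  set n := Module.finrank ℚ K with hn
  have hn1 : (1 : ℝ) ≤ n := by exact_mod_cast Module.finrank_pos (R := ℚ) (M := K)
  have hn0 : (0 : ℝ) ≤ n := by linarith
  set E2 := E.filter fun j => j ≠ -1 ∧ ht j ≤ n * L0 with hE2
  set E3 := E.filter fun j => j ≠ -1 ∧ sp j ≤ (1 - η) * ht j with hE3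
  set E4 := E.filter fun j => Two j with hE4
  have hsub : E ⊆ (E2 ∪ E3 ∪ E4) ∪ {-1} := by
    intro j hj
    rw [Finset.mem_union, Finset.mem_singleton, Finset.mem_union, Finset.mem_union]
    by_cases h1 : j = -1
    · exact Or.inr h1
    · left
      obtain ⟨h2, h3, h4, h5⟩ := hE j hj
      by_contra hcon
      push Not at hcon
      obtain ⟨⟨c1, c2⟩, c3⟩ := hcon
      rw [hE2, Finset.mem_filter] at c1
      rw [hE3, Finset.mem_filter] at c2
      rw [hE4, Finset.mem_filter] at c3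
      push Not at c1 c2 c3
      exact h5 (lsp_of h2 h3 (c3 hj) hη0.le hη (c2 hj h1).le (c1 hj h1).le)
  have hPt : ∀ j ∈ E, j ≠ -1 → Pt j := by
    intro j hj h1
    refine ⟨(hE j hj).1, fun h2 => h1 ?_⟩
    linear_combination h2
  have b2 : (E2.card : ℝ) ≤ Real.exp (n * (A1 + 3 * L0)) := by
    refine (hall K (n * L0) E2 ?_).trans (le_of_eq (by congr 1; ring))
    intro j hj
    rw [hE2, Finset.mem_filter] at hj
    exact ⟨hPt j hj.1 hj.2.1, hj.2.2⟩
  have b3 : (E3.card : ℝ) ≤ Real.exp (n * A2 + (2 - η / 2 + ε) * X) := by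
    refine hspc K η X E3 (by linarith) ?_
    intro j hj
    rw [hE3, Finset.mem_filter] at hj
    exact ⟨hPt j hj.1 hj.2.1, (hE j hj.1).2.2.1, hj.2.2⟩
  have b4 : (E4.card : ℝ) ≤ Real.exp (n * A3 + (2 + ε) / 3 * X) := by
    refine htwo K X E4 ?_
    intro j hj
    rw [hE4, Finset.mem_filter] at hj
    obtain ⟨α, h1, h2, h3, h4⟩ := hj.2
    exact ⟨(hE j hj.1).2.2.1, α, ⟨h1, h2⟩, h3, h4⟩
  have hcard : (E.card : ℝ) ≤ E2.card + E3.card + E4.card + 1 := by
    have h1 := Finset.card_le_card hsub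
    have h2 := Finset.card_union_le (E2 ∪ E3 ∪ E4) ({-1} : Finset K)
    have h3 := Finset.card_union_le (E2 ∪ E3) E4
    have h4 := Finset.card_union_le E2 E3
    rw [Finset.card_singleton] at h2
    exact_mod_cast (by omega : E.card ≤ E2.card + E3.card + E4.card + 1)
  set M0 : ℝ := n * (A1 + 3 * L0 + A2 + A3) + (2 - η / 2 + ε) * X with hM0
  have m2 : Real.exp (n * (A1 + 3 * L0)) ≤ Real.exp M0 := by
    apply Real.exp_le_exp.2
    have h1 : 0 ≤ (2 - η / 2 + ε) * X := mul_nonneg (by linarith) hX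
    have h2 : 0 ≤ n * (A2 + A3) := by positivity
    rw [hM0]
    nlinarith
  have m3 : Real.exp (n * A2 + (2 - η / 2 + ε) * X) ≤ Real.exp M0 := by
    apply Real.exp_le_exp.2
    have h2 : 0 ≤ n * (A1 + 3 * L0 + A3) := by positivity
    rw [hM0]
    nlinarith
  have m4 : Real.exp (n * A3 + (2 + ε) / 3 * X) ≤ Real.exp M0 := by
    apply Real.exp_le_exp.2
    have h2 : 0 ≤ n * (A1 + 3 * L0 + A2) := by positivity
    have h3 : (2 + ε) / 3 * X ≤ (2 - η / 2 + ε) * X :=
      mul_le_mul_of_nonneg_right (by linarith) hX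
    rw [hM0]
    nlinarith
  have m1 : 1 ≤ Real.exp M0 := by
    apply Real.one_le_exp
    have h1 : 0 ≤ (2 - η / 2 + ε) * X := mul_nonneg (by linarith) hX
    rw [hM0]
    positivity
  have hfin : (E.card : ℝ) ≤ 4 * Real.exp M0 := by linarith
  refine hfin.trans ?_
  have h4 : (4 : ℝ) ≤ Real.exp (n * Real.log 4) := by
    calc (4 : ℝ) = Real.exp (Real.log 4) := (Real.exp_log (by norm_num)).symm
      _ ≤ Real.exp (n * Real.log 4) := Real.exp_le_exp.2 (by nlinarith)
  calc 4 * Real.exp M0 ≤ Real.exp (n * Real.log 4) * Real.exp M0 :=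
        mul_le_mul_of_nonneg_right h4 (Real.exp_pos _).le
    _ = _ := by
        rw [← Real.exp_add, hM0]
        congr 1
        ring

end Pool.Agent.Y733.LS
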